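import Pool.Agent.Lib.MP_0a5adf_nt.EXP.Base

/-!
Module TREE: the tree bound (predictable parity).
-/

set_option autoImplicit false

namespace Pool.Agent.Lib.MP_0a5adf_nt.EXP.H29

open Finset

theorem ones_cons {k : ℕ} (b : Bool) (w : Fin k → Bool) :
    ones (Fin.cons b w : Fin (k + 1) → Bool) = b.toNat + ones w := by
  unfold ones
  rw [Fin.sum_univ_succ]
  simp

theorem wt_cons {k : ℕ} (α : Fin (k + 1) → ℝ) (b : Bool) (w : Fin k → Bool) :
    wt α (Fin.cons b w : Fin (k + 1) → Bool) =
      (if b then α 0 else 1 - α 0) * wt (fun t => α t.succ) w := by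
  unfold wt
  rw [Fin.prod_univ_succ]
  simp

theorem wt_nonneg {k : ℕ} (α : Fin k → ℝ) (hα : ∀ t, 0 ≤ α t ∧ α t ≤ 1) (w : Fin k → Bool) :
    0 ≤ wt α w := by
  unfold wt
  refine prod_nonneg fun t _ => ?_
  split_ifs
  · exact (hα t).1
  · linarith [(hα t).2]

/-- first letters and remaining words -/
def splitE (k : ℕ) : (Fin 4 → Bool) × (Fin 4 → Fin k → Bool) ≃ (Fin 4 → Fin (k + 1) → Bool) where
  toFun x := fun i => Fin.cons (x.1 i) (x.2 i)
  invFun a := (fun i => a i 0, fun i t => a i t.succ)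
  left_inv x := by
    obtain ⟨b, a⟩ := x
    simp
  right_inv a := by
    funext i t
    refine Fin.cases ?_ (fun t => ?_) t <;> simp

/-- sign of a letter -/
def sg (b : Bool) : ℝ := if b then -1 else 1

/-- the weighted number of quadruples of words -/
noncomputable def FF (k : ℕ) (α : Fin k → ℝ) (M : ℕ) (γ : Fin 4 → ℤ) (e : ℤ) : ℝ :=
  ∑ a : Fin 4 → Fin k → Bool, (∏ i, wt α (a i)) *
    (if (2 : ℤ) ^ k ∣ ∑ i, γ i * 3 ^ (M - ones (a i)) * rr (a i) - e then 1 else 0)

theorem sum_parity (x : ℝ) (h0 : 0 ≤ x) (h1 : x ≤ 1) (s : ℝ) (hs : s ≤ 1) :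
    ∑ b : Fin 4 → Bool, (∏ i, (if b i then x else 1 - x)) * ((1 + s * ∏ i, sg (b i)) / 2) ≤
      (1 + (1 - 2 * x) ^ 4) / 2 := by
  have e1 : ∑ b : Fin 4 → Bool, (∏ i, (if b i then x else 1 - x)) = 1 := by
    have := Fintype.sum_pow (fun b : Bool => if b then x else 1 - x) 4
    rw [← this, Fintype.sum_bool]
    simp
  have e2 : ∑ b : Fin 4 → Bool, (∏ i, (if b i then x else 1 - x)) * (∏ i, sg (b i)) =
      (1 - 2 * x) ^ 4 := by
    have := Fintype.sum_pow (fun b : Bool => (if b then x else 1 - x) * sg b) 4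
    simp_rw [← prod_mul_distrib]
    rw [← this, Fintype.sum_bool]
    simp only [sg, if_true, if_false, Bool.false_eq_true]
    ring
  have e3 : ∑ b : Fin 4 → Bool, (∏ i, (if b i then x else 1 - x)) *
      ((1 + s * ∏ i, sg (b i)) / 2) = (1 + s * (1 - 2 * x) ^ 4) / 2 := by
    have e4 : (1 + s * (1 - 2 * x) ^ 4) / 2 =
        (∑ b : Fin 4 → Bool, (∏ i, (if b i then x else 1 - x)) +
          s * ∑ b : Fin 4 → Bool, (∏ i, (if b i then x else 1 - x)) * (∏ i, sg (b i))) / 2 := by
      rw [e1, e2]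
    rw [e4, mul_sum, ← sum_add_distrib, sum_div]
    refine sum_congr rfl fun b _ => ?_
    ring
  rw [e3]
  have h4 : 0 ≤ (1 - 2 * x) ^ 4 := by positivity
  nlinarith

/-- sign of an integer -/
def sgz (e : ℤ) : ℝ := if e % 2 = 0 then 1 else -1

theorem sgz_mul (e : ℤ) (b : Bool) : sgz (e + b.toNat) = sgz e * sg b := by
  cases b
  · simp [sg]
  · have : e % 2 = 0 ∨ e % 2 = 1 := by omega
    have h3 : sg true = -1 := by simp [sg]
    rcases this with h | h
    · have h2 : (e + ((true : Bool).toNat : ℤ)) % 2 ≠ 0 := by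
        simp only [Bool.toNat_true, Nat.cast_one]
        omega
      rw [h3]
      unfold sgz
      rw [if_pos h, if_neg h2]
      ring
    · have h2 : (e + ((true : Bool).toNat : ℤ)) % 2 = 0 := by
        simp only [Bool.toNat_true, Nat.cast_one]
        omega
      rw [h3]
      unfold sgz
      rw [if_pos h2, if_neg (by omega)]
      ring

theorem tree_aux (hW : WordsStatement) (k : ℕ) : ∀ (α : Fin k → ℝ), (∀ t, 0 ≤ α t ∧ α t ≤ 1) →
    ∀ (M : ℕ) (γ : Fin 4 → ℤ) (e : ℤ), k ≤ M → (∀ i, γ i % 2 = 1) →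
      FF k α M γ e ≤ ∏ t, (1 + (1 - 2 * α t) ^ 4) / 2 := by
  induction k with
  | zero =>
    intro α _ M γ e _ _
    unfold FF
    simp [wt]
  | succ k ih =>
    intro α hα M γ e hM hγ
    obtain ⟨M, rfl⟩ : ∃ M', M = M' + 1 := ⟨M - 1, by omega⟩
    obtain ⟨-, hrec, hbd, -⟩ := hW
    set α' : Fin k → ℝ := fun t => α t.succ with hα'
    set B : ℝ := ∏ t, (1 + (1 - 2 * α' t) ^ 4) / 2 with hB
    have hB0 : 0 ≤ B := prod_nonneg fun t _ => by positivity
    -- the sum over the first letters
    have h1 : FF (k + 1) α (M + 1) γ e ≤ ∑ b : Fin 4 → Bool,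
        (∏ i, (if b i then α 0 else 1 - α 0)) * ((1 + sgz e * ∏ i, sg (b i)) / 2) * B := by
      unfold FF
      rw [← (splitE k).sum_comp, Fintype.sum_prod_type]
      refine sum_le_sum fun b _ => ?_
      have hPb : 0 ≤ ∏ i, (if b i then α 0 else 1 - α 0) := by
        refine prod_nonneg fun i _ => ?_
        split_ifs
        · exact (hα 0).1
        · linarith [(hα 0).2]
      set D : ℤ := ∑ i, γ i * ((b i).toNat * 3 ^ (M + 1 - (b i).toNat)) with hD
      set γ' : Fin 4 → ℤ := fun i => γ i * 3 ^ (1 - (b i).toNat) with hγ'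
      have hterm : ∀ a : Fin 4 → Fin k → Bool,
          ∑ i, γ i * 3 ^ (M + 1 - ones (splitE k (b, a) i)) * rr (splitE k (b, a) i) =
            D + 2 * ∑ i, γ' i * 3 ^ (M - ones (a i)) * rr (a i) := by
        intro a
        rw [hD, mul_sum, ← sum_add_distrib]
        refine sum_congr rfl fun i _ => ?_
        have e0 : splitE k (b, a) i = Fin.cons (b i) (a i) := rfl
        have hle := (hbd k (a i)).2.2
        have hbt : (b i).toNat ≤ 1 := Bool.toNat_le _
        rw [e0, ones_cons, hrec, hγ']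
        have e1 : (3 : ℤ) ^ (M + 1 - ((b i).toNat + ones (a i))) * 3 ^ ones (a i) =
            3 ^ (M + 1 - (b i).toNat) := by
          rw [← pow_add]
          congr 1
          omega
        have e2 : (3 : ℤ) ^ (M + 1 - ((b i).toNat + ones (a i))) =
            3 ^ (1 - (b i).toNat) * 3 ^ (M - ones (a i)) := by
          rw [← pow_add]
          congr 1
          omega
        calc γ i * 3 ^ (M + 1 - ((b i).toNat + ones (a i))) *
              (((b i).toNat : ℤ) * 3 ^ ones (a i) + 2 * rr (a i))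
            = γ i * ((b i).toNat * (3 ^ (M + 1 - ((b i).toNat + ones (a i))) *
                3 ^ ones (a i))) +
              2 * (γ i * 3 ^ (M + 1 - ((b i).toNat + ones (a i))) * rr (a i)) := by ring
          _ = _ := by
            rw [e1, e2]
            ring
      have hpar : sgz (e) * ∏ i, sg (b i) = sgz (e - D) := by
        have hD2 : (D - ∑ i, ((b i).toNat : ℤ)) % 2 = 0 := by
          rw [← Int.dvd_iff_emod_eq_zero, hD, ← sum_sub_distrib]
          refine dvd_sum fun i _ => ?_
          have h3 : ((3 : ℤ) ^ (M + 1 - (b i).toNat)) % 2 = 1 :=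
            Int.odd_iff.1 (Odd.pow (by decide))
          have : γ i * ((b i).toNat * 3 ^ (M + 1 - (b i).toNat)) - (b i).toNat =
              (b i).toNat * (γ i * 3 ^ (M + 1 - (b i).toNat) - 1) := by ring
          rw [this]
          refine Dvd.dvd.mul_left ?_ _
          rw [Int.dvd_iff_emod_eq_zero, Int.sub_emod, Int.mul_emod, hγ i, h3]
          rfl
        have e1 : sgz (e - D) = sgz (e + ∑ i, ((b i).toNat : ℤ)) := by
          unfold sgz
          have : (e - D) % 2 = (e + ∑ i, ((b i).toNat : ℤ)) % 2 := by omega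
          rw [this]
        rw [e1, Fin.sum_univ_four, Fin.prod_univ_four, ← add_assoc, ← add_assoc, ← add_assoc,
          sgz_mul, sgz_mul, sgz_mul, sgz_mul]
        ring
      rw [hpar]
      by_cases hev : (e - D) % 2 = 0
      · obtain ⟨e', he'⟩ : ∃ e', e - D = 2 * e' := ⟨(e - D) / 2, by omega⟩
        have hs : sgz (e - D) = 1 := by simp [sgz, hev]
        rw [hs]
        have hih := ih α' (fun t => hα _) M γ' e' (by omega) (by
          intro i
          rw [hγ', Int.mul_emod, hγ i]
          have h3 : ((3 : ℤ) ^ (1 - (b i).toNat)) % 2 = 1 :=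
            Int.odd_iff.1 (Odd.pow (by decide))
          rw [h3]
          rfl)
        calc ∑ a : Fin 4 → Fin k → Bool, (∏ i, wt α (splitE k (b, a) i)) *
              (if (2 : ℤ) ^ (k + 1) ∣ ∑ i, γ i * 3 ^ (M + 1 - ones (splitE k (b, a) i)) *
                rr (splitE k (b, a) i) - e then 1 else 0)
            = (∏ i, (if b i then α 0 else 1 - α 0)) * FF k α' M γ' e' := by
              unfold FF
              rw [mul_sum]
              refine sum_congr rfl fun a _ => ?_
              rw [hterm a]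
              have e0 : ∀ i, wt α (splitE k (b, a) i) =
                  (if b i then α 0 else 1 - α 0) * wt α' (a i) := by
                intro i
                exact wt_cons α (b i) (a i)
              simp_rw [e0]
              rw [prod_mul_distrib, mul_assoc]
              congr 2
              have e3 : D + 2 * ∑ i, γ' i * 3 ^ (M - ones (a i)) * rr (a i) - e =
                  2 * (∑ i, γ' i * 3 ^ (M - ones (a i)) * rr (a i) - e') := by
                rw [mul_sub, ← he']
                ring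
              rw [e3, pow_succ, mul_comm ((2 : ℤ) ^ k) 2]
              simp only [Int.mul_dvd_mul_iff_left (show (2 : ℤ) ≠ 0 by norm_num)]
          _ ≤ (∏ i, (if b i then α 0 else 1 - α 0)) * B :=
              mul_le_mul_of_nonneg_left hih hPb
          _ = (∏ i, (if b i then α 0 else 1 - α 0)) * ((1 + 1) / 2) * B := by ring
      · have hs : sgz (e - D) = -1 := by simp [sgz, hev]
        rw [hs]
        have hz : ∑ a : Fin 4 → Fin k → Bool, (∏ i, wt α (splitE k (b, a) i)) *
              (if (2 : ℤ) ^ (k + 1) ∣ ∑ i, γ i * 3 ^ (M + 1 - ones (splitE k (b, a) i)) *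
                rr (splitE k (b, a) i) - e then (1 : ℝ) else 0) = 0 := by
          refine sum_eq_zero fun a _ => ?_
          rw [hterm a, if_neg, mul_zero]
          intro hdvd
          have : (2 : ℤ) ∣ D + 2 * ∑ i, γ' i * 3 ^ (M - ones (a i)) * rr (a i) - e :=
            (dvd_pow_self 2 (Nat.succ_ne_zero k)).trans hdvd
          omega
        rw [hz]
        simp
    refine h1.trans ?_
    rw [← sum_mul, Fin.prod_univ_succ]
    refine mul_le_mul_of_nonneg_right ?_ hB0
    refine sum_parity (α 0) (hα 0).1 (hα 0).2 (sgz e) ?_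
    unfold sgz
    split_ifs <;> norm_num

theorem tree (hW : WordsStatement) : TreeStatement := by
  intro k α hα C j p hp hC v
  classical
  set Q : Finset ((Fin k → Bool) × (Fin k → Bool) × (Fin k → Bool) × (Fin k → Bool)) :=
    {q ∈ quad C | (2 : ℤ) ^ k ∣ rr q.1 + rr q.2.1 - rr q.2.2.1 - rr q.2.2.2 - v} with hQ
  set γ : Fin 4 → ℤ := ![1, 1, -1, -1] with hγ
  refine le_trans ?_ (tree_aux hW k α hα k γ (3 ^ (k - j) * v) le_rfl (by
    intro i
    fin_cases i <;> simp [hγ]))
  set φ : (Fin k → Bool) × (Fin k → Bool) × (Fin k → Bool) × (Fin k → Bool) →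
      (Fin 4 → Fin k → Bool) := fun q => ![q.1, q.2.1, q.2.2.1, q.2.2.2] with hφ
  have hinj : Function.Injective φ := by
    rintro ⟨a, b, c, d⟩ ⟨a', b', c', d'⟩ h
    have h0 := congrFun h 0
    have h1 := congrFun h 1
    have h2 := congrFun h 2
    have h3 := congrFun h 3
    simp only [hφ, Matrix.cons_val_zero, Matrix.cons_val_one, Matrix.cons_val] at h0 h1 h2 h3
    rw [h0, h1, h2, h3]
  have hterm0 : ∀ a : Fin 4 → Fin k → Bool, 0 ≤ (∏ i, wt α (a i)) *
      (if (2 : ℤ) ^ k ∣ ∑ i, γ i * 3 ^ (k - ones (a i)) * rr (a i) - 3 ^ (k - j) * v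
        then (1 : ℝ) else 0) := by
    intro a
    refine mul_nonneg (prod_nonneg fun i _ => wt_nonneg α hα _) ?_
    split_ifs <;> norm_num
  calc (#Q : ℝ) * p ^ 4 = ∑ _q ∈ Q, p ^ 4 := by rw [sum_const, nsmul_eq_mul]
    _ ≤ ∑ q ∈ Q, (∏ i, wt α (φ q i)) *
      (if (2 : ℤ) ^ k ∣ ∑ i, γ i * 3 ^ (k - ones (φ q i)) * rr (φ q i) - 3 ^ (k - j) * v
        then (1 : ℝ) else 0) := by
      refine sum_le_sum fun q hq => ?_
      rw [hQ, mem_filter, quad, mem_product, mem_product, mem_product] at hq
      obtain ⟨⟨ha, hb, hc, hd⟩, hdvd⟩ := hq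
      have e1 : ∑ i, γ i * 3 ^ (k - ones (φ q i)) * rr (φ q i) - 3 ^ (k - j) * v =
          3 ^ (k - j) * (rr q.1 + rr q.2.1 - rr q.2.2.1 - rr q.2.2.2 - v) := by
        rw [Fin.sum_univ_four]
        simp only [hφ, hγ, Matrix.cons_val_zero, Matrix.cons_val_one, Matrix.cons_val]
        rw [(hC _ ha).1, (hC _ hb).1, (hC _ hc).1, (hC _ hd).1]
        ring
      rw [e1, if_pos (Dvd.dvd.mul_left hdvd _), mul_one, Fin.prod_univ_four]
      simp only [hφ, Matrix.cons_val_zero, Matrix.cons_val_one, Matrix.cons_val]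
      have e2 : p ^ 4 = p * p * p * p := by ring
      rw [e2]
      have ka := (hC _ ha).2
      have kb := (hC _ hb).2
      have kc := (hC _ hc).2
      have kd := (hC _ hd).2
      have la := wt_nonneg α hα q.1
      have lb := wt_nonneg α hα q.2.1
      have lc := wt_nonneg α hα q.2.2.1
      have lab := mul_nonneg la lb
      have labc := mul_nonneg lab lc
      gcongr
    _ = ∑ a ∈ Q.image φ, (∏ i, wt α (a i)) *
      (if (2 : ℤ) ^ k ∣ ∑ i, γ i * 3 ^ (k - ones (a i)) * rr (a i) - 3 ^ (k - j) * v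
        then (1 : ℝ) else 0) := by
      rw [sum_image fun x _ y _ h => hinj h]
    _ ≤ FF k α k γ (3 ^ (k - j) * v) := by
      unfold FF
      exact sum_le_univ_sum_of_nonneg hterm0

end Pool.Agent.Lib.MP_0a5adf_nt.EXP.H29
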