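import Pool.Agent.Lib.MP_0a5adf_nt.EXP.Base

/-!
Modules WORDS and HEIGHT.
-/

set_option autoImplicit false

namespace Pool.Agent.Lib.MP_0a5adf_nt.EXP.H29

open Finset

theorem ones_cons' {k : ℕ} (b : Bool) (w : Fin k → Bool) :
    ones (Fin.cons b w : Fin (k + 1) → Bool) = b.toNat + ones w := by
  unfold ones
  rw [Fin.sum_univ_succ]
  simp

theorem suf_zero {k : ℕ} (w : Fin k → Bool) : suf w 0 = ones w := by
  unfold suf ones
  refine sum_congr rfl fun t _ => ?_
  rw [if_neg (Nat.not_lt_zero _)]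

theorem suf_cons {k : ℕ} (b : Bool) (w : Fin k → Bool) (n : ℕ) :
    suf (Fin.cons b w : Fin (k + 1) → Bool) (n + 1) = suf w n := by
  unfold suf
  rw [Fin.sum_univ_succ]
  simp only [Fin.val_zero, Nat.zero_lt_succ, if_true, zero_add, Fin.val_succ, Fin.cons_succ,
    Nat.add_lt_add_iff_right]

theorem rr_cons {k : ℕ} (b : Bool) (w : Fin k → Bool) :
    rr (Fin.cons b w : Fin (k + 1) → Bool) = (b.toNat : ℤ) * 3 ^ ones w + 2 * rr w := by
  unfold rr
  rw [Fin.sum_univ_succ, mul_sum]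
  simp only [Fin.val_zero, pow_zero, one_mul, Fin.val_succ, Fin.cons_succ, Fin.cons_zero]
  rw [suf_cons, suf_zero]
  congr 1
  refine sum_congr rfl fun t _ => ?_
  rw [suf_cons, pow_succ]
  ring

theorem wd_succ (k : ℕ) (x : ℤ) :
    wd (k + 1) x = (Fin.cons (decide (x % 2 ≠ 0)) (wd k (T x)) : Fin (k + 1) → Bool) := by
  funext t
  refine Fin.cases ?_ (fun t => ?_) t
  · simp [wd]
  · simp [wd]

theorem two_mul_T (x : ℤ) :
    2 * T x = 3 ^ (decide (x % 2 ≠ 0)).toNat * x + (decide (x % 2 ≠ 0)).toNat := by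
  unfold T
  split_ifs with h
  · simp [h]
    omega
  · simp [h]
    omega

theorem words : WordsStatement := by
  refine ⟨?_, fun k b w => rr_cons b w, ?_, ?_⟩
  · intro k
    induction k with
    | zero =>
      intro x
      simp [ones, rr]
    | succ k ih =>
      intro x
      rw [wd_succ, ones_cons', rr_cons, Function.iterate_succ_apply, pow_succ,
        mul_comm ((2 : ℤ) ^ k) 2, mul_assoc, ih (T x), pow_add]
      have := two_mul_T x
      calc 2 * (3 ^ ones (wd k (T x)) * T x + rr (wd k (T x)))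
          = 3 ^ ones (wd k (T x)) * (2 * T x) + 2 * rr (wd k (T x)) := by ring
        _ = _ := by
          rw [this]
          ring
  · intro k
    induction k with
    | zero =>
      intro w
      simp [rr, ones]
    | succ k ih =>
      intro w
      have e : w = (Fin.cons (w 0) (Fin.tail w) : Fin (k + 1) → Bool) := (Fin.cons_self_tail w).symm
      rw [e, rr_cons, ones_cons']
      obtain ⟨h1, h2, h3⟩ := ih (Fin.tail w)
      have hb : (w 0).toNat ≤ 1 := Bool.toNat_le _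
      have hb' : ((w 0).toNat : ℤ) ≤ 1 := by exact_mod_cast hb
      have hp : (3 : ℤ) ^ ones (Fin.tail w) ≤ 3 ^ k := pow_le_pow_right₀ (by norm_num) h3
      have hp0 : (0 : ℤ) < 3 ^ ones (Fin.tail w) := by positivity
      refine ⟨by positivity, ?_, by omega⟩
      have : ((w 0).toNat : ℤ) * 3 ^ ones (Fin.tail w) ≤ 3 ^ k := by nlinarith
      rw [pow_succ]
      linarith
  · intro k n w
    unfold pre suf ones
    rw [← sum_add_distrib]
    refine sum_congr rfl fun t _ => ?_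
    split_ifs <;> simp

theorem sum_range_mul' {f : ℕ → ℕ} (a b : ℕ) :
    ∑ l ∈ range (a * b), f l = ∑ i ∈ range a, ∑ j ∈ range b, f (i * b + j) := by
  induction a with
  | zero => simp
  | succ a ih => rw [add_mul, one_mul, sum_range_add, ih, sum_range_succ]

theorem ones_wd (k : ℕ) (x : ℤ) :
    ones (wd k x) = ∑ t ∈ range k, (decide (T^[t] x % 2 ≠ 0)).toNat := by
  unfold ones wd
  exact Fin.sum_univ_eq_sum_range (fun t => (decide (T^[t] x % 2 ≠ 0)).toNat) k

theorem ones_blocks (m i : ℕ) (x : ℤ) :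
    ones (wd (i * m) x) = ∑ l ∈ range i, ones (bw m x l) := by
  rw [ones_wd, sum_range_mul']
  refine sum_congr rfl fun l _ => ?_
  rw [bw, ones_wd]
  refine sum_congr rfl fun t _ => ?_
  rw [← Function.iterate_add_apply, Nat.add_comm t]

theorem height (hW : WordsStatement) : HeightStatement := by
  intro c
  refine ⟨2 * (c + 1), fun m hm x hx i hi => ?_⟩
  obtain ⟨h01, -, hbd, -⟩ := hW
  obtain ⟨hx1, hx2⟩ := hx
  set k := (i + 1) * m with hk
  set J := ∑ l ∈ range (i + 1), ones (bw m x l) with hJ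
  have hJ' : ones (wd k x) = J := ones_blocks m (i + 1) x
  have h1 := h01 k x
  rw [hJ'] at h1
  have h2 := hx2 (i + 1) (by omega) (by omega)
  rw [← hk] at h2
  have h3 := (hbd k (wd k x))
  have hk4 : k ≤ 4 * m := Nat.mul_le_mul_right _ (by omega)
  -- the numerical inequality
  have hnum : (2 : ℤ) ^ (c + 1) * 3 ^ k ≤ 2 ^ k * 2 ^ (3 * m) := by
    have a1 : (2 : ℤ) ^ (c + 1) * 3 ^ (4 * m) ≤ 2 ^ (7 * m) := by
      have b1 : (2 : ℤ) ^ (c + 1) * 81 ^ (2 * (c + 1)) ≤ 128 ^ (2 * (c + 1)) := by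
        rw [pow_mul, pow_mul, ← mul_pow]
        exact pow_le_pow_left₀ (by norm_num) (by norm_num) _
      have b2 : (81 : ℤ) ^ (m - 2 * (c + 1)) ≤ 128 ^ (m - 2 * (c + 1)) :=
        pow_le_pow_left₀ (by norm_num) (by norm_num) _
      have e1 : (3 : ℤ) ^ (4 * m) = 81 ^ (2 * (c + 1)) * 81 ^ (m - 2 * (c + 1)) := by
        rw [← pow_add, pow_mul]
        norm_num
        omega
      have e2 : (2 : ℤ) ^ (7 * m) = 128 ^ (2 * (c + 1)) * 128 ^ (m - 2 * (c + 1)) := by
        rw [← pow_add, pow_mul]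
        norm_num
        omega
      rw [e1, e2, ← mul_assoc]
      exact mul_le_mul b1 b2 (by positivity) (by positivity)
    have a2 : (2 : ℤ) ^ (c + 1) * 3 ^ k * 3 ^ (4 * m - k) ≤
        2 ^ k * 2 ^ (3 * m) * 3 ^ (4 * m - k) := by
      calc (2 : ℤ) ^ (c + 1) * 3 ^ k * 3 ^ (4 * m - k) = 2 ^ (c + 1) * 3 ^ (4 * m) := by
            rw [mul_assoc, ← pow_add]
            congr 2
            omega
        _ ≤ 2 ^ (7 * m) := a1
        _ = 2 ^ k * 2 ^ (3 * m) * 2 ^ (4 * m - k) := by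
            rw [← pow_add, ← pow_add]
            congr 1
            omega
        _ ≤ 2 ^ k * 2 ^ (3 * m) * 3 ^ (4 * m - k) :=
            mul_le_mul_of_nonneg_left (pow_le_pow_left₀ (by norm_num) (by norm_num) _)
              (by positivity)
    exact le_of_mul_le_mul_right a2 (by positivity)
  have h4 : (2 : ℤ) ^ k * |T^[k] x| ≤ 3 ^ J * |x| + 3 ^ k := by
    have : (2 : ℤ) ^ k * |T^[k] x| = |3 ^ J * x + rr (wd k x)| := by
      rw [← h1, abs_mul, abs_of_pos (show (0 : ℤ) < 2 ^ k by positivity)]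
    rw [this]
    refine (abs_add_le _ _).trans ?_
    rw [abs_mul, abs_of_pos (show (0 : ℤ) < 3 ^ J by positivity), abs_of_nonneg h3.1]
    linarith [h3.2.1]
  have h5 : (2 : ℤ) ^ k * 2 ^ (3 * m) ≤ 2 ^ (2 * c) * 3 ^ J * 2 ^ (3 * m) + 2 ^ c * 3 ^ k := by
    calc (2 : ℤ) ^ k * 2 ^ (3 * m) ≤ 2 ^ k * (2 ^ c * |T^[k] x|) :=
          mul_le_mul_of_nonneg_left h2 (by positivity)
      _ = 2 ^ c * (2 ^ k * |T^[k] x|) := by ring
      _ ≤ 2 ^ c * (3 ^ J * |x| + 3 ^ k) := mul_le_mul_of_nonneg_left h4 (by positivity)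
      _ ≤ 2 ^ c * (3 ^ J * 2 ^ (3 * m + c) + 3 ^ k) := by
          refine mul_le_mul_of_nonneg_left ?_ (by positivity)
          have := mul_le_mul_of_nonneg_left hx1 (show (0 : ℤ) ≤ 3 ^ J by positivity)
          linarith
      _ = 2 ^ (2 * c) * 3 ^ J * 2 ^ (3 * m) + 2 ^ c * 3 ^ k := by
          rw [pow_add, pow_mul]
          ring
  have h6 : (2 : ℤ) ^ k * 2 ^ (3 * m) ≤ (2 ^ (2 * c + 1) * 3 ^ J) * 2 ^ (3 * m) := by
    have e1 : (2 : ℤ) ^ (c + 1) * 3 ^ k = 2 * (2 ^ c * 3 ^ k) := by ring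
    have e2 : ((2 : ℤ) ^ (2 * c + 1) * 3 ^ J) * 2 ^ (3 * m) =
        2 * (2 ^ (2 * c) * 3 ^ J * 2 ^ (3 * m)) := by ring
    rw [e1] at hnum
    rw [e2]
    linarith
  have h7 := le_of_mul_le_mul_right h6 (by positivity)
  exact_mod_cast h7

end Pool.Agent.Lib.MP_0a5adf_nt.EXP.H29
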